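import Pool.Agent.H748R3.HUR.Stmts

set_option autoImplicit false

/-! Task NotSigma of project H748-HUR: `Fin × Fin` is not sigma-compact. -/

namespace Pool.Agent.H573R3.HUR

open Filter Set Pool.Agent.H748R3.HUR

/-- some point of the window with value `1` -/
def U (l m : ℕ) : Set K := {x | ∃ k, l ≤ k ∧ k < l + m + 1 ∧ ∃ h, h < m ∧ x (k, h) = 1}

theorem isOpen_U (l m : ℕ) : IsOpen (U l m) := by
  have : U l m = ⋃ k, ⋃ (_ : l ≤ k ∧ k < l + m + 1), ⋃ h, ⋃ (_ : h < m), {x : K | x (k, h) = 1} := by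
    ext x
    simp only [U, mem_iUnion]
    constructor
    · rintro ⟨k, h1, h2, h, h3, h4⟩
      exact ⟨k, ⟨h1, h2⟩, h, h3, h4⟩
    · rintro ⟨k, ⟨h1, h2⟩, h, h3, h4⟩
      exact ⟨k, h1, h2, h, h3, h4⟩
  rw [this]
  refine isOpen_iUnion fun k => isOpen_iUnion fun _ => isOpen_iUnion fun h => isOpen_iUnion fun _ => ?_
  have h1 : {x : K | x (k, h) = 1} = (fun x : K => x (k, h)) ⁻¹' {1} := rfl
  rw [h1]
  exact (isOpen_discrete _).preimage (continuous_apply _)

theorem key {C : Set K} (hC : IsCompact C) (hI : ∀ x ∈ C, InH x) (l : ℕ) : ∃ m, C ⊆ U l m := by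
  refine hC.elim_directed_cover (U l) (isOpen_U l) ?_ ?_
  · intro x hx
    obtain ⟨m, hm⟩ := hI x hx
    obtain ⟨N, hN⟩ := hm (max m l) (le_max_left _ _)
    rw [mem_iUnion]
    refine ⟨max m l + N + 1, max m l, le_max_right _ _, by omega, N, by omega, hN N le_rfl⟩
  · refine directed_of_isDirected_le ?_
    intro a b hab x hx
    obtain ⟨k, h1, h2, h, h3, h4⟩ := hx
    exact ⟨k, h1, by omega, h, by omega, h4⟩

/-- the recursively defined end points -/
def Lf (m : ℕ → ℕ → ℕ) : ℕ → ℕ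
  | 0 => 0
  | n + 1 => Lf m n + m n (Lf m n) + 1

open Classical in
/-- the point outside all the compact sets -/
noncomputable def pt (m : ℕ → ℕ → ℕ) : K := fun p : ℕ × ℕ =>
  if ∃ n, Lf m n ≤ p.1 ∧ p.1 < Lf m (n + 1) ∧ p.2 < m n (Lf m n) then (-1 : ℤˣ) else 1

theorem taskNotSigma : TaskNotSigma := by
  rintro ⟨C, hC, hU⟩
  have hI : ∀ n, ∀ x ∈ C n, InH x := by
    intro n x hx
    have : x ∈ ((HH : Subgroup K) : Set K) := by
      rw [← hU]
      exact mem_iUnion.2 ⟨n, hx⟩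
    exact this
  choose m hm using fun n l => key (hC n) (hI n) l
  have hL : ∀ n, Lf m (n + 1) = Lf m n + m n (Lf m n) + 1 := fun n => rfl
  have hge : ∀ n, n ≤ Lf m n := by
    intro n
    induction n with
    | zero => exact Nat.zero_le _
    | succ n ih => rw [hL]; omega
  have hx : InH (pt m) := by
    refine ⟨0, fun k _ => ⟨(Finset.range (k + 1)).sup fun n => m n (Lf m n), fun h hh => ?_⟩⟩
    unfold pt
    rw [if_neg]
    rintro ⟨n, h1, _, h3⟩
    have h4 : n ∈ Finset.range (k + 1) := by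
      rw [Finset.mem_range]
      have := hge n
      simp only at h1
      omega
    have h5 : m n (Lf m n) ≤ (Finset.range (k + 1)).sup fun n => m n (Lf m n) :=
      Finset.le_sup (f := fun n => m n (Lf m n)) h4
    simp only at h3
    omega
  have hx' : pt m ∈ ⋃ n, C n := by
    rw [hU]
    exact hx
  obtain ⟨n, hn⟩ := mem_iUnion.1 hx'
  obtain ⟨k, h1, h2, h, h3, h4⟩ := hm n (Lf m n) hn
  have h5 : pt m (k, h) = -1 := by
    unfold pt
    rw [if_pos]
    exact ⟨n, h1, by rw [hL]; exact h2, h3⟩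
  rw [h4] at h5
  exact absurd h5 (by decide)

end Pool.Agent.H573R3.HUR
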